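import Mathlib
import Pool.Agent.H93.Exo.Isolated
import Pool.Agent.H93.Exo.Radial

/-!
A necessary condition for a homeomorphism with an isolated singularity to be a `W^{2,q}` limit of
diffeomorphisms, for `q > n - 1`.
-/

namespace Pool.Agent.Results.MP_ea0877_an.IsolatedSingularity

open Pool.Agent.H93.Exo

theorem result (n : ℕ) (hn : 2 ≤ n) (q : ℝ) (hq : (n : ℝ) - 1 < q) (Ω U : Set (Euc n)) (z : Euc n)
    (hΩ : IsOpen Ω) (hU : IsOpen U) (hz : z ∈ U) (hUΩ : U ⊆ Ω)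
    (f : Euc n → Euc n) (hf : IsW2Homeo q Ω f) (hfz : IsDiffeoOn (Ω \ {z}) f)
    (hlim : IsW2Limit q Ω f) :
    ∃ H : Euc n → Euc n, IsDiffeoOn Ω H ∧ H '' Ω = f '' Ω ∧ ∀ x ∈ Ω \ U, H x = f x := by
  obtain ⟨m, rfl⟩ : ∃ m, n = m + 1 := ⟨n - 1, by omega⟩
  exact hlim.isolated finrank_euclideanSpace_fin (by omega) (by push_cast at hq; linarith) hΩ hU
    hUΩ hz hf.1 hfz

end Pool.Agent.Results.MP_ea0877_an.IsolatedSingularity
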