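import Mathlib
import Pool.Agent.H93.Nine.QRange
import Pool.Agent.Wtw.MkFDQ

/-!
For every `n ≥ 9` there is a map of `ℝ^n` which, for every `1 ≤ q < 480/477`, is a `W^{2,q}`
homeomorphism of the cube `(-8,8)^n` and is not a `W^{2,q}` limit of diffeomorphisms.
-/

namespace Pool.Agent.Results.MP_ea0877_an.NotApproximable

open Pool.Agent.H93.Exo Pool.Agent.H93.Nine Pool.Agent.Wtw

theorem result (n : ℕ) (hn : 9 ≤ n) : ∃ f : EE n → EE n, ∀ q : ℝ, 1 ≤ q → q < 480 / 477 →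
    IsW2Homeo q (cube n) f ∧ ¬ IsW2Limit q (cube n) f := by
  obtain ⟨j, rfl⟩ : ∃ j, n = j + 7 + 2 := ⟨n - 9, by omega⟩
  obtain ⟨f, K, h⟩ := f_dataQ
  exact ⟨G0 f j, fun q h1 h2 => main_q h j h1 h2⟩

end Pool.Agent.Results.MP_ea0877_an.NotApproximable
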