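import Mathlib
import Pool.Agent.H93.Exo.ConeLim2

/-!
Let `n = m + 1 ≥ 3` and let `φ` be a diffeomorphism of the unit sphere of `ℝ^n`. The map
`‖x‖^3 φ(x/‖x‖)` is a `W^{2,q}` homeomorphism for every `q`. It is a `W^{2,q}` limit of
diffeomorphisms for every `q ≤ n - 1`, and for `q > n - 1` exactly when `φ` extends to a
diffeomorphism of the closed ball.
-/

namespace Pool.Agent.Results.MP_ea0877_an.SharpThreshold

open Pool.Agent.H93.Exo

theorem result (m : ℕ) (hm : 2 ≤ m) (φ : Sph m → Sph m) (hφ : IsSphDiffeo φ)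
    (Ω : Set (Euc (m + 1))) (hΩ : IsBddNhd Ω) (q : ℝ) (hq : 1 ≤ q) :
    W2Homeo q Ω (cone φ) ∧ (W2Limit q Ω (cone φ) ↔ q ≤ (m : ℝ) ∨ Extends φ) := by
  refine ⟨(criterion' (by omega) hφ hΩ).1 q hq, ?_⟩
  obtain ⟨h3, ψ, h4, h5, h6⟩ := hφ
  exact isW2Limit_cone_iff
    { toEquiv := ⟨φ, ψ, h5, h6⟩
      contMDiff_toFun := h3
      contMDiff_invFun := h4 } hm hq hΩ.1 hΩ.2.1 hΩ.2.2

end Pool.Agent.Results.MP_ea0877_an.SharpThreshold
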