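import Mathlib
import Pool.Agent.H93.Exo.Sob
import Pool.Agent.H93.Exo.Radial

/-!
A necessary condition for a homeomorphism with a compact singular set to be a `W^{2,q}` limit of
diffeomorphisms.
-/

namespace Pool.Agent.Results.MP_ea0877_an.SingularSet

open Pool.Agent.H93.Exo

theorem result (n : ℕ) (hn : 1 ≤ n) (q : ℝ) (hq : (n : ℝ) < q) (Ω Z U : Set (Euc n))
    (hΩ : IsOpen Ω) (hZ : IsCompact Z) (hU : IsOpen U) (hZU : Z ⊆ U) (hUΩ : U ⊆ Ω)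
    (f : Euc n → Euc n) (hf : IsW2Homeo q Ω f) (hfZ : IsDiffeoOn (Ω \ Z) f)
    (hlim : IsW2Limit q Ω f) :
    ∃ H : Euc n → Euc n, IsDiffeoOn Ω H ∧ H '' Ω = f '' Ω ∧ ∀ x ∈ Ω \ U, H x = f x := by
  have hq1 : (1 : ℝ) ≤ q := by
    have : (1 : ℝ) ≤ n := by exact_mod_cast hn
    linarith
  exact (hlim.isC1Limit (by rw [finrank_euclideanSpace_fin]; exact hq) hq1 hΩ hf.1.1).modify hΩ hZ hU hZU hUΩ hf.1 hfZ

end Pool.Agent.Results.MP_ea0877_an.SingularSet
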